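import Mathlib
import Pool.Agent.Results.MP_827700_an.UpperContinuity

set_option autoImplicit false

open scoped Pointwise
open MeasureTheory Filter Topology

namespace Pool.Agent.Results.MP_5d7a45_an.CocompactEntropy

open Pool.Agent.Results.MP_827700_an.UpperContinuity

section main

variable {G : Type*} [AddCommGroup G] [TopologicalSpace G] [IsTopologicalAddGroup G]
  [LocallyCompactSpace G] [T2Space G] [MeasurableSpace G] [BorelSpace G]

omit [LocallyCompactSpace G] in
/-- If `C + φ C ⊆ E + C` with `E` a finite subset of the closed invariant subgroup `K`, then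
`H_A(φ, C)` is dominated by the entropy of the restriction to `K`. -/
lemma HA_le_of_finite_cover (μ : Measure G) [μ.IsAddHaarMeasure] (φ : G →+ G)
    (K : AddSubgroup G) (hK : IsClosed (K : Set G))
    (h : ∀ x ∈ K, φ x ∈ K) (ν : Measure K) [ν.IsAddHaarMeasure]
    (C : Set G) (hC : IsCompact C) (hC0 : C ∈ 𝓝 (0 : G))
    (E : Finset G) (hi : (E : Set G) ⊆ K) (hE : C + φ '' C ⊆ (E : Set G) + C) :
    HA μ φ C ≤ hA ν (restr φ K h) := by
  classical
  have h0C : (0 : G) ∈ C := mem_of_mem_nhds hC0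
  have hemb : IsClosedEmbedding (K.subtype : K → G) := hK.isClosedEmbedding_subtypeVal
  have hcov := fun n => traj_cover φ hE n
  let E₀ : Set K := K.subtype ⁻¹' (E : Set G) ∪ {0}
  have hE₀fin : E₀.Finite := by
    refine Set.Finite.union ?_ (Set.finite_singleton _)
    exact Set.Finite.preimage (hemb.injective.injOn) E.finite_toSet
  have hE₀0 : (0 : K) ∈ E₀ := Or.inr rfl
  have hEE₀ : (E : Set G) ⊆ K.subtype '' E₀ := by
    intro x hx
    exact ⟨⟨x, hi hx⟩, Or.inl hx, rfl⟩
  let U : Set K := K.subtype ⁻¹' C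
  have hUc : IsCompact U := hemb.isCompact_preimage hC
  have hU0 : U ∈ 𝓝 (0 : K) := by
    apply hemb.continuous.continuousAt
    rw [map_zero]
    exact hC0
  have hUz : (0 : K) ∈ U := mem_of_mem_nhds hU0
  let C' : Set K := E₀ + U
  have hC'c : IsCompact C' := (hE₀fin.isCompact).add hUc
  have hC'0 : C' ∈ 𝓝 (0 : K) := by
    refine mem_of_superset hU0 ?_
    intro u hu
    exact ⟨0, hE₀0, u, hu, by simp⟩
  refine le_trans ?_ (le_iSup₂ (f := fun (C : Set K) (_ : IsCompact C ∧ C ∈ 𝓝 (0 : K)) =>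
    HA ν (restr φ K h) C) C' ⟨hC'c, hC'0⟩)
  unfold HA
  have hUpos : ν U ≠ 0 := (Measure.measure_pos_of_mem_nhds ν hU0).ne'
  have hUfin : ν U ≠ ⊤ := hUc.measure_lt_top.ne
  let D : Set G := (C - C) + C
  have hDc : IsCompact D := by
    have : IsCompact (C - C) := by rw [sub_eq_add_neg]; exact hC.add hC.neg
    exact this.add hC
  have hDfin : μ D ≠ ⊤ := hDc.measure_lt_top.ne
  refine limsup_log_le (c := μ D / ν U) (ENNReal.div_ne_top hDfin hUpos) ?_
  intro n hn
  obtain ⟨m, rfl⟩ : ∃ m, n = m + 1 := ⟨n - 1, by omega⟩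
  have hTfin : (traj (restr φ K h) E₀ (m + 1)).Finite := by
    rw [← coe_restrHom]
    exact finite_traj (restrHom φ K h) hE₀fin _
  obtain ⟨S, hSE, hES, hcard⟩ := packing ν hTfin.isCompact hUc hU0
  have hsub : traj (restr φ K h) E₀ (m + 1) + U ⊆
      traj (restr φ K h) C' (m + 1) := by
    rw [← coe_restrHom]
    exact traj_add_subset (restrHom φ K h) hUz m
  have h1 : traj φ C (m + 1) ⊆ ⋃ s ∈ S, (K.subtype s +ᵥ D) := by
    intro x hx
    have hx1 := hcov (m + 1) (traj_subset_succ φ h0C (m + 1) hx)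
    obtain ⟨y, hy, c, hc, rfl⟩ := hx1
    have hy1 : y ∈ K.subtype '' (traj (restr φ K h) E₀ (m + 1)) := by
      rw [image_traj]
      exact traj_mono_set φ hEE₀ _ hy
    obtain ⟨z, hz, rfl⟩ := hy1
    obtain ⟨s, hs, d, ⟨u, hu, v, hv, rfl⟩, rfl⟩ := hES hz
    simp only [Set.mem_iUnion]
    refine ⟨s, hs, (K.subtype u - K.subtype v) + c,
      ⟨_, ⟨_, hu, _, hv, rfl⟩, c, hc, rfl⟩, ?_⟩
    simp [add_assoc]
  calc μ (traj φ C (m + 1)) ≤ μ (⋃ s ∈ S, (K.subtype s +ᵥ D)) := measure_mono h1
    _ ≤ ∑ s ∈ S, μ (K.subtype s +ᵥ D) := measure_biUnion_finset_le _ _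
    _ = (S.card : ENNReal) * μ D := by
        rw [Finset.sum_congr rfl (fun s _ => measure_vadd μ (K.subtype s) D)]; simp
    _ = (μ D / ν U) * ((S.card : ENNReal) * ν U) := by
        rw [ENNReal.div_eq_inv_mul, mul_comm (S.card : ENNReal) (ν U), ← mul_assoc,
          mul_assoc _ (μ D), mul_comm (μ D), ← mul_assoc, ENNReal.inv_mul_cancel hUpos hUfin,
          one_mul, mul_comm]
    _ ≤ (μ D / ν U) * ν (traj (restr φ K h) E₀ (m + 1) + U) :=
        mul_le_mul_right hcard _
    _ ≤ (μ D / ν U) * ν (traj (restr φ K h) C' (m + 1)) :=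
        mul_le_mul_right (measure_mono hsub) _

omit [LocallyCompactSpace G] [T2Space G] [MeasurableSpace G] [BorelSpace G] in
/-- In a locally compact group with a cocompact subgroup `K`, every compact neighbourhood `C`
of `0` is contained in a compact neighbourhood `V` with `V + φ V ⊆ E + V` for some finite
`E ⊆ K`. -/
lemma exists_good_nhd (φ : G →+ G) (hφ : Continuous φ) (K : AddSubgroup G)
    [CompactSpace (G ⧸ K)] (C : Set G) (hC : IsCompact C) (hC0 : C ∈ 𝓝 (0 : G)) :
    ∃ V : Set G, C ⊆ V ∧ IsCompact V ∧ V ∈ 𝓝 (0 : G) ∧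
      ∃ E : Finset G, (E : Set G) ⊆ K ∧ V + φ '' V ⊆ (E : Set G) + V := by
  classical
  -- finitely many translates of `interior C` cover the quotient
  have hopen : ∀ g : G, IsOpen ((QuotientAddGroup.mk : G → G ⧸ K) '' (g +ᵥ interior C)) :=
    fun g => QuotientAddGroup.isOpenMap_coe _ (isOpen_interior.vadd g)
  obtain ⟨F, hF⟩ := (isCompact_univ (X := G ⧸ K)).elim_finite_subcover
    (fun g : G => (QuotientAddGroup.mk : G → G ⧸ K) '' (g +ᵥ interior C)) hopen (by
      intro y _
      obtain ⟨g, rfl⟩ := QuotientAddGroup.mk_surjective y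
      simp only [Set.mem_iUnion]
      exact ⟨g, g, ⟨0, mem_interior_iff_mem_nhds.mpr hC0, by simp⟩, rfl⟩)
  let F' : Finset G := insert 0 F
  let V : Set G := (F' : Set G) + C
  let W : Set G := (F' : Set G) + interior C
  have hWV : W ⊆ V := Set.add_subset_add_left interior_subset
  have hWopen : IsOpen W := isOpen_interior.add_left
  have hVc : IsCompact V := (F'.finite_toSet.isCompact).add hC
  have hCV : C ⊆ V := by
    intro c hc
    exact ⟨0, by simp [F'], c, hc, by simp⟩
  refine ⟨V, hCV, hVc, mem_of_superset hC0 hCV, ?_⟩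
  -- `K + W = G`
  have hKW : ∀ x : G, ∃ k ∈ K, x ∈ k +ᵥ W := by
    intro x
    have hx := hF (Set.mem_univ (QuotientAddGroup.mk x))
    simp only [Set.mem_iUnion] at hx
    obtain ⟨g, hg, y, hy, hyx⟩ := hx
    rw [QuotientAddGroup.eq] at hyx
    refine ⟨-y + x, hyx, y, ?_, by simp⟩
    obtain ⟨c, hc, rfl⟩ := hy
    exact ⟨g, by simp [F', hg], c, hc, rfl⟩
  obtain ⟨E, hE⟩ := (hVc.add (hVc.image hφ)).elim_finite_subcover
    (fun k : K => ((k : G) +ᵥ W)) (fun k => hWopen.vadd (k : G)) (by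
      intro x _
      obtain ⟨k, hk, hx⟩ := hKW x
      simp only [Set.mem_iUnion]
      exact ⟨⟨k, hk⟩, hx⟩)
  refine ⟨E.image (fun k : K => (k : G)), ?_, ?_⟩
  · intro x hx
    simp only [Finset.coe_image, Set.mem_image] at hx
    obtain ⟨k, _, rfl⟩ := hx
    exact k.2
  · intro x hx
    have := hE hx
    simp only [Set.mem_iUnion] at this
    obtain ⟨k, hk, w, hw, hkw⟩ := this
    exact ⟨k, by simpa using hk, w, hWV hw, hkw⟩

end main

/-- **Algebraic entropy and invariant closed cocompact subgroups.**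
Let `G` be a locally compact Hausdorff abelian group, `φ` a continuous endomorphism of `G`, and
`K` a closed `φ`-invariant subgroup with `G ⧸ K` compact (in particular any uniform discrete
`φ`-invariant subgroup).  Then `h_A(φ) = h_A(φ|_K)`, for any Haar measures on `G` and on `K`. -/
theorem result {G : Type*} [AddCommGroup G] [TopologicalSpace G] [IsTopologicalAddGroup G]
    [LocallyCompactSpace G] [T2Space G] [MeasurableSpace G] [BorelSpace G]
    (μ : Measure G) [μ.IsAddHaarMeasure]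
    (φ : G →+ G) (hφ : Continuous φ)
    (K : AddSubgroup G) (hK : IsClosed (K : Set G) ∨ DiscreteTopology K)
    [CompactSpace (G ⧸ K)] (hinv : ∀ x ∈ K, φ x ∈ K)
    (ν : Measure K) [ν.IsAddHaarMeasure] :
    hA μ φ = hA ν (restr φ K hinv) := by
  have hclosed : IsClosed (K : Set G) := by
    rcases hK with h | h
    · exact h
    · exact AddSubgroup.isClosed_of_discrete
  apply le_antisymm
  · rw [hA]
    refine iSup₂_le ?_
    rintro C ⟨hC, hC0⟩
    obtain ⟨V, hCV, hV, hV0, E, hEK, hE⟩ := exists_good_nhd φ hφ K C hC hC0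
    refine le_trans ?_ (HA_le_of_finite_cover μ φ K hclosed hinv ν V hV hV0 E hEK hE)
    unfold HA
    refine limsup_le_limsup (Eventually.of_forall fun n => ?_)
    refine mul_le_mul_of_nonneg_left ?_ ?_
    · exact ENNReal.log_le_log (measure_mono (traj_mono_set φ hCV n))
    · exact_mod_cast inv_nonneg.mpr (Nat.cast_nonneg n)
  · exact hA_closed_subgroup_le μ φ hφ K hclosed hinv ν

end Pool.Agent.Results.MP_5d7a45_an.CocompactEntropy
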